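import Pool.Agent.H60G2.End

/-!
# Single steps: from the sets to the pairs of bases of a represented matroid
-/

set_option autoImplicit false

namespace Pool.Agent.H60G2

open Finset
open scoped Matroid
open Pool.Agent.H68Rg

variable {K : Type*} [Field K]

/-- A step of at most one element. -/
def Step1 {r : ℕ} (E : Fin r ⊕ Fin r → Fin r → K) (A A' : Finset (Fin r ⊕ Fin r)) : Prop :=
  Good E A' ∧ r ≤ (A ∩ A').card + 1

/-- Two sets of the same size which differ in at most one element. -/
theorem eq_or_exch {ι : Type*} [DecidableEq ι] {r : ℕ} {A A' : Finset ι} (h : A.card = r)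
    (h' : A'.card = r) (hc : r ≤ (A ∩ A').card + 1) :
    A' = A ∨ ∃ a ∈ A, ∃ d ∉ A, A' = insert d (A.erase a) := by
  by_cases he : A' = A
  · exact Or.inl he
  right
  have h7 := Finset.card_sdiff_add_card_inter A A'
  have h7' := Finset.card_sdiff_add_card_inter A' A
  rw [Finset.inter_comm] at h7'
  have hne : (A \ A').Nonempty := by
    rw [Finset.nonempty_iff_ne_empty]
    intro h0
    have h1 := Finset.sdiff_eq_empty_iff_subset.1 h0
    exact he (Finset.eq_of_subset_of_card_le h1 (by omega)).symm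
  have h8 : 0 < (A \ A').card := Finset.card_pos.2 hne
  obtain ⟨a, ha⟩ := Finset.card_eq_one.1 (show (A \ A').card = 1 by omega)
  obtain ⟨d, hd⟩ := Finset.card_eq_one.1 (show (A' \ A).card = 1 by omega)
  have ha' : a ∈ A \ A' := by rw [ha]; exact mem_singleton_self a
  have hd' : d ∈ A' \ A := by rw [hd]; exact mem_singleton_self d
  rw [mem_sdiff] at ha' hd'
  refine ⟨a, ha'.1, d, hd'.2, ?_⟩
  ext x
  rw [mem_insert, mem_erase]
  constructor
  · intro hx
    by_cases hxA : x ∈ A
    · exact Or.inr ⟨fun h => ha'.2 (h ▸ hx), hxA⟩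
    · left
      have : x ∈ A' \ A := mem_sdiff.2 ⟨hx, hxA⟩
      rwa [hd, mem_singleton] at this
  · rintro (rfl | ⟨h1, h2⟩)
    · exact hd'.1
    · by_contra hx
      have : x ∈ A \ A' := mem_sdiff.2 ⟨h2, hx⟩
      rw [ha, mem_singleton] at this
      exact h1 this

/-- **Transfer to matroids.** -/
theorem swap1_of_paths {α V : Type*} [AddCommGroup V] [Module K V]
    (M : Matroid α) (φ : α → V) (hφ : ∀ X ⊆ M.E, M.Indep X ↔ LinearIndepOn K φ X)
    {B B' : Set α} (hB : M.IsBase B) (hB' : M.IsBase B') (hfin : B.Finite)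
    (hpath : ∀ E : Fin (B \ B').ncard ⊕ Fin (B \ B').ncard → Fin (B \ B').ncard → K,
      (LinearIndependent K fun i => E (Sum.inl i)) → (LinearIndependent K fun i => E (Sum.inr i)) →
      Relation.ReflTransGen (Step1 E)
        (univ.map ⟨Sum.inl, Sum.inl_injective⟩) (univ.map ⟨Sum.inr, Sum.inr_injective⟩)) :
    Relation.ReflTransGen (H11SW.SymExchange M) (B, B') (B', B) := by
  classical
  set n := (B \ B').ncard with hn
  set C := B ∩ B' with hC
  have hfin' : B'.Finite := by
    rw [← Set.encard_lt_top_iff, hB'.encard_eq_encard_of_isBase hB, Set.encard_lt_top_iff]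
    exact hfin
  have hn' : (B' \ B).ncard = n := by
    have h1 := Set.ncard_inter_add_ncard_sdiff_eq_ncard B B' hfin
    have h2 := Set.ncard_inter_add_ncard_sdiff_eq_ncard B' B hfin'
    rw [Set.inter_comm] at h2
    have h3 := hB'.ncard_eq_ncard_of_isBase hB
    omega
  obtain ⟨b, hb, hbr⟩ : ∃ b : Fin n → α, Function.Injective b ∧ Set.range b = B \ B' := by
    have : Finite (B \ B' : Set α) := hfin.sdiff
    let e : Fin n ≃ (B \ B' : Set α) :=
      (Finite.equivFinOfCardEq (Nat.card_coe_set_eq (B \ B'))).symm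
    exact ⟨fun i => (e i : α), Subtype.val_injective.comp e.injective, by
      rw [show (fun i => (e i : α)) = Subtype.val ∘ e from rfl, Set.range_comp, e.range_eq_univ,
        Set.image_univ, Subtype.range_coe]⟩
  obtain ⟨b', hb', hbr'⟩ : ∃ b' : Fin n → α, Function.Injective b' ∧ Set.range b' = B' \ B := by
    have : Finite (B' \ B : Set α) := hfin'.sdiff
    let e : Fin n ≃ (B' \ B : Set α) :=
      (Finite.equivFinOfCardEq ((Nat.card_coe_set_eq (B' \ B)).trans hn')).symm
    exact ⟨fun i => (e i : α), Subtype.val_injective.comp e.injective, by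
      rw [show (fun i => (e i : α)) = Subtype.val ∘ e from rfl, Set.range_comp, e.range_eq_univ,
        Set.image_univ, Subtype.range_coe]⟩
  -- contraction of the common part
  have hCi : M.Indep C := hB.indep.subset Set.inter_subset_left
  have hCE : C ⊆ M.E := hCi.subset_ground
  have hφ' : ∀ X ⊆ (M ／ C).E, (M ／ C).Indep X ↔
      LinearIndepOn K ((Submodule.span K (φ '' C)).mkQ ∘ φ) X := by
    intro X hX
    rw [Matroid.contract_ground] at hX
    have hd : Disjoint C X := (Set.disjoint_sdiff_right).mono_right hX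
    rw [hCi.contract_indep_iff, LinearIndepOn.quotient_iff_union ((hφ C hCE).1 hCi) hd,
      Set.union_comm X C, hφ _ (Set.union_subset hCE (hX.trans Set.sdiff_subset))]
    exact and_iff_right hd.symm
  have hbase1 : (M ／ C).IsBase (Set.range b) := by
    rw [hbr, hCi.contract_isBase_iff]
    refine ⟨?_, ?_⟩
    · rwa [hC, Set.union_comm, Set.inter_union_sdiff]
    · rw [hC]
      exact Set.disjoint_left.2 fun x hx hx' => hx.2 hx'.2
  have hbase2 : (M ／ C).IsBase (Set.range b') := by
    rw [hbr', hCi.contract_isBase_iff]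
    refine ⟨?_, ?_⟩
    · rwa [hC, Set.union_comm, Set.inter_comm, Set.inter_union_sdiff]
    · rw [hC]
      exact Set.disjoint_left.2 fun x hx hx' => hx.2 hx'.1
  obtain ⟨E, hE, h1, h2⟩ := H11SW.exists_vectors (M ／ C) _ hφ' b b' hb hb' hbase1 hbase2
  set g : Fin n ⊕ Fin n → α := Sum.elim b b' with hg
  have hginj : Function.Injective g := by
    refine Function.Injective.sumElim hb hb' ?_
    intro i j hij
    have h3 : b i ∈ B \ B' := hbr ▸ ⟨i, rfl⟩
    have h4 : b' j ∈ B' \ B := hbr' ▸ ⟨j, rfl⟩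
    exact h3.2 (hij ▸ h4.1)
  have hgC : ∀ a, g a ∉ C := by
    rintro (i | i) h
    · have h3 : b i ∈ B \ B' := hbr ▸ ⟨i, rfl⟩
      exact h3.2 h.2
    · have h3 : b' i ∈ B' \ B := hbr' ▸ ⟨i, rfl⟩
      exact h3.2 h.1
  have hbase : ∀ A, Good E A → M.IsBase (g '' (A : Set (Fin n ⊕ Fin n)) ∪ C) ∧
      M.IsBase (g '' ((Aᶜ : Finset (Fin n ⊕ Fin n)) : Set (Fin n ⊕ Fin n)) ∪ C) := by
    intro A hA
    obtain ⟨h5, h3, h4⟩ := hA
    have h6 : Aᶜ.card = n := Good.card_compl ⟨h5, h3, h4⟩
    exact ⟨(hCi.contract_isBase_iff.1 (hE A h5 h3).1).1,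
      (hCi.contract_isBase_iff.1 (hE Aᶜ h6 h4).1).1⟩
  -- the pair of bases of a set
  let P : Finset (Fin n ⊕ Fin n) → Set α × Set α := fun A =>
    (g '' (A : Set (Fin n ⊕ Fin n)) ∪ C,
      g '' ((Aᶜ : Finset (Fin n ⊕ Fin n)) : Set (Fin n ⊕ Fin n)) ∪ C)
  have main : ∀ A, Relation.ReflTransGen (Step1 E)
      (univ.map ⟨Sum.inl, Sum.inl_injective⟩) A → Good E A ∧
      Relation.ReflTransGen (H11SW.SymExchange M)
        (P (univ.map ⟨Sum.inl, Sum.inl_injective⟩)) (P A) := by
    intro A hA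
    induction hA with
    | refl => exact ⟨good_first h1 h2, Relation.ReflTransGen.refl⟩
    | @tail A A' _ h ih =>
      obtain ⟨hF', hc⟩ := h
      obtain ⟨hF, ih⟩ := ih
      rcases eq_or_exch hF.1 hF'.1 hc with rfl | ⟨a, ha, d, hd, rfl⟩
      · exact ⟨hF', ih⟩
      refine ⟨hF', ih.tail ⟨⟨g a, Or.inl ⟨a, ha, rfl⟩, g d, Or.inl ⟨d, by simpa using hd, rfl⟩,
        ?_, ?_⟩, (hbase _ hF').1, (hbase _ hF').2⟩⟩
      · change g '' _ ∪ C = insert (g d) ((g '' _ ∪ C) \ {g a})
        rw [coe_insert, Set.image_insert_eq, coe_erase, Set.insert_union, Set.union_sdiff_distrib,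
          Set.image_sdiff hginj, Set.image_singleton, Set.sdiff_singleton_eq_self (hgC a)]
      · have e : ((insert d (A.erase a))ᶜ : Finset (Fin n ⊕ Fin n)) = insert a (Aᶜ.erase d) := by
          ext x
          simp only [mem_compl, mem_insert, mem_erase, not_or, not_and_or, not_not]
          constructor
          · rintro ⟨h3, h4 | h4⟩
            · exact Or.inl h4
            · exact Or.inr ⟨h3, h4⟩
          · rintro (h4 | ⟨h3, h4⟩)
            · subst h4
              exact ⟨fun h => hd (h ▸ ha), Or.inl rfl⟩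
            · exact ⟨h3, Or.inr h4⟩
        change g '' _ ∪ C = insert (g a) ((g '' ((Aᶜ : Finset (Fin n ⊕ Fin n)) :
          Set (Fin n ⊕ Fin n)) ∪ C) \ {g d})
        rw [e, coe_insert (a := a), Set.image_insert_eq, coe_erase, Set.insert_union,
          Set.union_sdiff_distrib, Set.image_sdiff hginj, Set.image_singleton,
          Set.sdiff_singleton_eq_self (hgC d)]
  have h3 := (main _ (hpath E h1 h2)).2
  have e1 : P (univ.map ⟨Sum.inl, Sum.inl_injective⟩) = (B, B') := by
    refine Prod.ext ?_ ?_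
    · change g '' _ ∪ C = B
      have : g '' ((univ.map ⟨Sum.inl, Sum.inl_injective⟩ : Finset (Fin n ⊕ Fin n)) :
          Set (Fin n ⊕ Fin n)) = B \ B' := by
        rw [← hbr]
        ext x
        simp [hg]
      rw [this, hC, Set.union_comm, Set.inter_union_sdiff]
    · change g '' _ ∪ C = B'
      have : g '' (((univ.map ⟨Sum.inl, Sum.inl_injective⟩)ᶜ : Finset (Fin n ⊕ Fin n)) :
          Set (Fin n ⊕ Fin n)) = B' \ B := by
        rw [← hbr']
        ext x
        simp [hg]
      rw [this, hC, Set.union_comm, Set.inter_comm, Set.inter_union_sdiff]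
  have e2 : P (univ.map ⟨Sum.inr, Sum.inr_injective⟩) = (B', B) := by
    refine Prod.ext ?_ ?_
    · change g '' _ ∪ C = B'
      have : g '' ((univ.map ⟨Sum.inr, Sum.inr_injective⟩ : Finset (Fin n ⊕ Fin n)) :
          Set (Fin n ⊕ Fin n)) = B' \ B := by
        rw [← hbr']
        ext x
        simp [hg]
      rw [this, hC, Set.union_comm, Set.inter_comm, Set.inter_union_sdiff]
    · change g '' _ ∪ C = B
      have : g '' (((univ.map ⟨Sum.inr, Sum.inr_injective⟩)ᶜ : Finset (Fin n ⊕ Fin n)) :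
          Set (Fin n ⊕ Fin n)) = B \ B' := by
        rw [← hbr]
        ext x
        simp [hg]
      rw [this, hC, Set.union_comm, Set.inter_union_sdiff]
  rw [e1, e2] at h3
  exact h3

/-- The path of the sets, in terms of the rank one sums. -/
def MStep1 {ι : Type*} [DecidableEq ι] {r : ℕ} (v w : ι → Fin r → K) (A A' : Finset ι) : Prop :=
  A'.card = r ∧ (msum v w A').det ≠ 0 ∧ r ≤ (A ∩ A').card + 1

/-- **The swap by single exchanges from the statement on vectors.** -/
theorem swap1_of_core {α V : Type*} [AddCommGroup V] [Module K V]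
    (M : Matroid α) (φ : α → V) (hφ : ∀ X ⊆ M.E, M.Indep X ↔ LinearIndepOn K φ X)
    {B B' : Set α} (hB : M.IsBase B) (hB' : M.IsBase B') (hfin : B.Finite) {r : ℕ}
    (hr : (B \ B').ncard = r)
    (core : ∀ (v w : Fin r ⊕ Fin r → Fin r → K), (∀ i j, ∑ x, v x i * w x j = 0) →
      ∀ S : Finset (Fin r ⊕ Fin r), S.card = r → (msum v w S).det ≠ 0 →
      Relation.ReflTransGen (MStep1 v w) S Sᶜ) :
    Relation.ReflTransGen (H11SW.SymExchange M) (B, B') (B', B) := by
  subst hr
  refine swap1_of_paths M φ hφ hB hB' hfin fun E h1 h2 => ?_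
  obtain ⟨w, hw, hd⟩ := exists_dual E h1 h2
  have h3 := core E w hw _ (by simp) hd
  have e : ((univ.map ⟨Sum.inl, Sum.inl_injective⟩)ᶜ :
      Finset (Fin (B \ B').ncard ⊕ Fin (B \ B').ncard)) =
      univ.map ⟨Sum.inr, Sum.inr_injective⟩ := by
    ext x
    rcases x with i | i <;> simp
  rw [e] at h3
  exact Relation.ReflTransGen.mono (fun A A' h => ⟨good_of_msum hw h.1 h.2.1, h.2.2⟩) _ _ h3

end Pool.Agent.H60G2
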