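import Mathlib

/-!
# The matroid of a finite family of vectors
-/

set_option autoImplicit false

namespace Pool.Agent.H60G2

open Finset

variable {K : Type*} [Field K]

/-- The augmentation property. -/
theorem aug {ι V : Type*} [Finite ι] [AddCommGroup V] [Module K V] (v : ι → V)
    {I J : Set ι} (hI : LinearIndepOn K v I) (hJ : LinearIndepOn K v J)
    (h : I.ncard < J.ncard) : ∃ e ∈ J, e ∉ I ∧ LinearIndepOn K v (insert e I) := by
  classical
  by_contra hc
  push Not at hc
  have h1 : v '' J ⊆ (Submodule.span K (v '' I) : Set V) := by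
    rintro _ ⟨e, he, rfl⟩
    by_cases heI : e ∈ I
    · exact Submodule.subset_span ⟨e, heI, rfl⟩
    · by_contra h2
      exact hc e he heI (hI.insert h2)
  have h2 : Submodule.span K (v '' J) ≤ Submodule.span K (v '' I) := Submodule.span_le.2 h1
  have fI : I.Finite := Set.toFinite I
  have fJ : J.Finite := Set.toFinite J
  haveI : Fintype I := fI.fintype
  haveI : Fintype J := fJ.fintype
  have e1 : Module.finrank K (Submodule.span K (v '' I)) = I.ncard := by
    have := finrank_span_eq_card (show LinearIndependent K fun x : I => v x from hI)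
    rw [← Set.image_eq_range] at this
    rw [this, ← Nat.card_eq_fintype_card, Nat.card_coe_set_eq]
  have e2 : Module.finrank K (Submodule.span K (v '' J)) = J.ncard := by
    have := finrank_span_eq_card (show LinearIndependent K fun x : J => v x from hJ)
    rw [← Set.image_eq_range] at this
    rw [this, ← Nat.card_eq_fintype_card, Nat.card_coe_set_eq]
  haveI : FiniteDimensional K (Submodule.span K (v '' I)) :=
    FiniteDimensional.span_of_finite K (fI.image v)
  have h3 := Submodule.finrank_mono h2
  omega

/-- The matroid of the family `v`. -/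
def lin {ι V : Type*} [Finite ι] [AddCommGroup V] [Module K V] (v : ι → V) : Matroid ι :=
  (IndepMatroid.ofFinite (E := Set.univ) Set.finite_univ (fun I => LinearIndepOn K v I)
    (linearIndepOn_empty K v) (fun _ _ hJ hIJ => hJ.mono hIJ)
    (fun _ _ hI hJ h => aug v hI hJ h) (fun _ _ => Set.subset_univ _)).matroid

theorem lin_indep {ι V : Type*} [Finite ι] [AddCommGroup V] [Module K V] (v : ι → V)
    (I : Set ι) : (lin (K := K) v).Indep I ↔ LinearIndepOn K v I := by
  simp [lin]

/-- The bases, if one base is known. -/
theorem lin_isBase {ι V : Type*} [Finite ι] [AddCommGroup V] [Module K V] {v : ι → V}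
    {r : ℕ} (hV : Module.finrank K V = r) [FiniteDimensional K V] {S : Finset ι}
    (hS : S.card = r) (hSi : LinearIndepOn K v (S : Set ι)) (A : Finset ι) :
    (lin (K := K) v).IsBase (A : Set ι) ↔ A.card = r ∧ LinearIndepOn K v (A : Set ι) := by
  classical
  have hle : ∀ B : Finset ι, LinearIndepOn K v (B : Set ι) → B.card ≤ r := by
    intro B hB
    have := LinearIndependent.fintype_card_le_finrank (show LinearIndependent K
      (fun a : (B : Set ι) => v a) from hB)
    rw [hV] at this
    simpa using this
  have hSb : (lin (K := K) v).IsBase (S : Set ι) := by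
    rw [Matroid.isBase_iff_maximal_indep]
    refine ⟨(lin_indep v _).2 hSi, ?_⟩
    intro T hT hST
    have fT : T.Finite := Set.toFinite T
    obtain ⟨T', rfl⟩ : ∃ T' : Finset ι, (T' : Set ι) = T := ⟨fT.toFinset, by simp⟩
    have h1 := hle T' ((lin_indep v _).1 hT)
    have h2 : S ⊆ T' := by exact_mod_cast hST
    rw [Finset.eq_of_subset_of_card_le h2 (by omega)]
  constructor
  · intro h
    refine ⟨?_, (lin_indep v _).1 h.indep⟩
    have := h.ncard_eq_ncard_of_isBase hSb
    rw [Set.ncard_coe_finset, Set.ncard_coe_finset, hS] at this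
    exact this
  · rintro ⟨h1, h2⟩
    rw [Matroid.isBase_iff_maximal_indep]
    refine ⟨(lin_indep v _).2 h2, ?_⟩
    intro T hT hST
    have fT : T.Finite := Set.toFinite T
    obtain ⟨T', rfl⟩ : ∃ T' : Finset ι, (T' : Set ι) = T := ⟨fT.toFinset, by simp⟩
    have h3 := hle T' ((lin_indep v _).1 hT)
    have h4 : A ⊆ T' := by exact_mod_cast hST
    rw [Finset.eq_of_subset_of_card_le h4 (by omega)]

end Pool.Agent.H60G2
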