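import Pool.Agent.H11SW.Matroid

/-!
# The dual family of the vectors of two bases, and rank one sums
-/

set_option autoImplicit false

namespace Pool.Agent.H60G2

open Finset

variable {K : Type*} [Field K]

/-- The sum of the rank one matrices `v x (w x)ᵀ`, `x ∈ A`. -/
def msum {ι : Type*} {r : ℕ} (v w : ι → Fin r → K) (A : Finset ι) : Matrix (Fin r) (Fin r) K :=
  Matrix.of fun i j => ∑ x ∈ A, v x i * w x j

theorem msum_eq {ι : Type*} {r : ℕ} (v w : ι → Fin r → K) (A : Finset ι) (hA : A.card = r) :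
    ∃ e : Fin r ≃ A, msum v w A = (Matrix.of fun i j => v (e i) j).transpose *
      (Matrix.of fun i j => w (e i) j) := by
  let e : Fin r ≃ A := (A.equivFinOfCardEq hA).symm
  refine ⟨e, ?_⟩
  ext i j
  rw [Matrix.mul_apply]
  simp only [msum, Matrix.of_apply, Matrix.transpose_apply]
  rw [Equiv.sum_comp e (fun x : A => v x i * w x j), Finset.sum_coe_sort A
    (fun x => v x i * w x j)]

theorem indepOn_of_equiv {ι : Type*} {r : ℕ} (v : ι → Fin r → K) (A : Finset ι)
    (e : Fin r ≃ A) (h : (Matrix.of fun i j => v (e i) j).det ≠ 0) :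
    LinearIndepOn K v (A : Set ι) := by
  have h1 := Matrix.linearIndependent_rows_of_det_ne_zero h
  have h2 := h1.comp e.symm e.symm.injective
  have e1 : ((fun i => Matrix.of (fun i j => v (e i) j) i) ∘ e.symm) =
      fun x : (A : Set ι) => v x := by
    funext x
    funext j
    simp
  rw [e1] at h2
  exact h2

theorem indep_left {ι : Type*} {r : ℕ} (v w : ι → Fin r → K) (A : Finset ι) (hA : A.card = r)
    (h : (msum v w A).det ≠ 0) : LinearIndepOn K v (A : Set ι) := by
  obtain ⟨e, he⟩ := msum_eq v w A hA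
  rw [he, Matrix.det_mul, Matrix.det_transpose] at h
  exact indepOn_of_equiv v A e (left_ne_zero_of_mul h)

theorem indep_right {ι : Type*} {r : ℕ} (v w : ι → Fin r → K) (A : Finset ι) (hA : A.card = r)
    (h : (msum v w A).det ≠ 0) : LinearIndepOn K w (A : Set ι) := by
  obtain ⟨e, he⟩ := msum_eq v w A hA
  rw [he, Matrix.det_mul, Matrix.det_transpose] at h
  exact indepOn_of_equiv w A e (right_ne_zero_of_mul h)

theorem msum_compl {ι : Type*} [Fintype ι] [DecidableEq ι] {r : ℕ} (v w : ι → Fin r → K)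
    (h : ∀ i j, ∑ x, v x i * w x j = 0) (A : Finset ι) : msum v w Aᶜ = - msum v w A := by
  ext i j
  simp only [msum, Matrix.of_apply, Matrix.neg_apply]
  rw [eq_neg_iff_add_eq_zero, Finset.sum_compl_add_sum, h]

theorem det_msum_compl {ι : Type*} [Fintype ι] [DecidableEq ι] {r : ℕ} (v w : ι → Fin r → K)
    (h : ∀ i j, ∑ x, v x i * w x j = 0) (A : Finset ι) :
    (msum v w Aᶜ).det = (-1) ^ r * (msum v w A).det := by
  rw [msum_compl v w h, Matrix.det_neg, Fintype.card_fin]

/-- The dual family. -/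
theorem exists_dual {r : ℕ} (E : Fin r ⊕ Fin r → Fin r → K)
    (h1 : LinearIndependent K fun i : Fin r => E (Sum.inl i))
    (h2 : LinearIndependent K fun i : Fin r => E (Sum.inr i)) :
    ∃ w : Fin r ⊕ Fin r → Fin r → K, (∀ i j, ∑ x, E x i * w x j = 0) ∧
      (msum E w (univ.map ⟨Sum.inl, Sum.inl_injective⟩)).det ≠ 0 := by
  let P : Matrix (Fin r) (Fin r) K := Matrix.of fun i j => E (Sum.inl j) i
  let Q : Matrix (Fin r) (Fin r) K := Matrix.of fun i j => E (Sum.inr j) i
  have hP : IsUnit P.det := by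
    have := Matrix.linearIndependent_cols_iff_isUnit.1 (show LinearIndependent K P.col from h1)
    exact (Matrix.isUnit_iff_isUnit_det _).1 this
  have hQ : IsUnit Q.det := by
    have := Matrix.linearIndependent_cols_iff_isUnit.1 (show LinearIndependent K Q.col from h2)
    exact (Matrix.isUnit_iff_isUnit_det _).1 this
  refine ⟨Sum.elim (fun i j => - P⁻¹ i j) (fun i j => Q⁻¹ i j), ?_, ?_⟩
  · intro i j
    rw [Fintype.sum_sum_type]
    have e1 : ∑ x, E (Sum.inl x) i * (- P⁻¹ x j) = - (1 : Matrix (Fin r) (Fin r) K) i j := by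
      rw [← Matrix.mul_nonsing_inv P hP, Matrix.mul_apply, ← Finset.sum_neg_distrib]
      exact Finset.sum_congr rfl fun x _ => by simp [P]
    have e2 : ∑ x, E (Sum.inr x) i * Q⁻¹ x j = (1 : Matrix (Fin r) (Fin r) K) i j := by
      rw [← Matrix.mul_nonsing_inv Q hQ, Matrix.mul_apply]
      exact Finset.sum_congr rfl fun x _ => by simp [Q]
    simp only [Sum.elim_inl, Sum.elim_inr]
    rw [e1, e2, neg_add_cancel]
  · have e3 : msum E (Sum.elim (fun i j => - P⁻¹ i j) (fun i j => Q⁻¹ i j))
        (univ.map ⟨Sum.inl, Sum.inl_injective⟩) = -1 := by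
      ext i j
      have e1 : ∑ x, E (Sum.inl x) i * (- P⁻¹ x j) = - (1 : Matrix (Fin r) (Fin r) K) i j := by
        rw [← Matrix.mul_nonsing_inv P hP, Matrix.mul_apply, ← Finset.sum_neg_distrib]
        exact Finset.sum_congr rfl fun x _ => by simp [P]
      simp only [msum, Matrix.of_apply, Finset.sum_map, Function.Embedding.coeFn_mk,
        Sum.elim_inl, Matrix.neg_apply]
      exact e1
    rw [e3, Matrix.det_neg, Matrix.det_one, mul_one]
    exact pow_ne_zero _ (neg_ne_zero.2 one_ne_zero)

end Pool.Agent.H60G2
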