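import Pool.Agent.H60G2.Basic

/-!
# Steps of at most two elements: from the sets to the pairs of bases of a represented matroid
-/

set_option autoImplicit false

namespace Pool.Agent.H60G2

open Finset
open scoped Matroid
open Pool.Agent.H68Rg

variable {K : Type*} [Field K]

/-- The pair `Q` arises from the pair `P` by an exchange of at most two elements of each set, and
`Q` is a pair of bases. -/
def TwoExchange {α : Type*} (M : Matroid α) (P Q : Set α × Set α) : Prop :=
  (∃ X ⊆ P.1, ∃ Y ⊆ P.2, X.encard ≤ 2 ∧ Y.encard = X.encard ∧ Q.1 = (P.1 \ X) ∪ Y ∧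
    Q.2 = (P.2 \ Y) ∪ X) ∧ M.IsBase Q.1 ∧ M.IsBase Q.2

/-- `A` and its complement are bases. -/
def Good {r : ℕ} (E : Fin r ⊕ Fin r → Fin r → K) (A : Finset (Fin r ⊕ Fin r)) : Prop :=
  A.card = r ∧ LinearIndepOn K E (A : Set (Fin r ⊕ Fin r)) ∧
    LinearIndepOn K E ((Aᶜ : Finset (Fin r ⊕ Fin r)) : Set (Fin r ⊕ Fin r))

theorem Good.card_compl {r : ℕ} {E : Fin r ⊕ Fin r → Fin r → K} {A : Finset (Fin r ⊕ Fin r)}
    (h : Good E A) : Aᶜ.card = r := by
  have e3 := Finset.card_add_card_compl A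
  rw [Fintype.card_sum, Fintype.card_fin, h.1] at e3
  omega

theorem good_first {r : ℕ} {E : Fin r ⊕ Fin r → Fin r → K}
    (h1 : LinearIndependent K fun i : Fin r => E (Sum.inl i))
    (h2 : LinearIndependent K fun i : Fin r => E (Sum.inr i)) :
    Good E (univ.map ⟨Sum.inl, Sum.inl_injective⟩) := by
  refine ⟨by simp, ?_, ?_⟩
  · have e : ((univ.map ⟨Sum.inl, Sum.inl_injective⟩ : Finset (Fin r ⊕ Fin r)) :
        Set (Fin r ⊕ Fin r)) = Set.range Sum.inl := by
      ext x
      simp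
    rw [e, linearIndepOn_range_iff Sum.inl_injective E]
    exact h1
  · have e : (((univ.map ⟨Sum.inl, Sum.inl_injective⟩)ᶜ : Finset (Fin r ⊕ Fin r)) :
        Set (Fin r ⊕ Fin r)) = Set.range Sum.inr := by
      ext x
      rcases x with i | i <;> simp
    rw [e, linearIndepOn_range_iff Sum.inr_injective E]
    exact h2

/-- A step of at most two elements. -/
def Step {r : ℕ} (E : Fin r ⊕ Fin r → Fin r → K) (A A' : Finset (Fin r ⊕ Fin r)) : Prop :=
  Good E A' ∧ r ≤ (A ∩ A').card + 2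

/-- **Transfer to matroids.** -/
theorem swap_of_paths {α V : Type*} [AddCommGroup V] [Module K V]
    (M : Matroid α) (φ : α → V) (hφ : ∀ X ⊆ M.E, M.Indep X ↔ LinearIndepOn K φ X)
    {B B' : Set α} (hB : M.IsBase B) (hB' : M.IsBase B') (hfin : B.Finite)
    (hpath : ∀ E : Fin (B \ B').ncard ⊕ Fin (B \ B').ncard → Fin (B \ B').ncard → K,
      (LinearIndependent K fun i => E (Sum.inl i)) → (LinearIndependent K fun i => E (Sum.inr i)) →
      Relation.ReflTransGen (Step E)
        (univ.map ⟨Sum.inl, Sum.inl_injective⟩) (univ.map ⟨Sum.inr, Sum.inr_injective⟩)) :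
    Relation.ReflTransGen (TwoExchange M) (B, B') (B', B) := by
  classical
  set n := (B \ B').ncard with hn
  set C := B ∩ B' with hC
  have hfin' : B'.Finite := by
    rw [← Set.encard_lt_top_iff, hB'.encard_eq_encard_of_isBase hB, Set.encard_lt_top_iff]
    exact hfin
  have hn' : (B' \ B).ncard = n := by
    have h1 := Set.ncard_inter_add_ncard_sdiff_eq_ncard B B' hfin
    have h2 := Set.ncard_inter_add_ncard_sdiff_eq_ncard B' B hfin'
    rw [Set.inter_comm] at h2
    have h3 := hB'.ncard_eq_ncard_of_isBase hB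
    omega
  obtain ⟨b, hb, hbr⟩ : ∃ b : Fin n → α, Function.Injective b ∧ Set.range b = B \ B' := by
    have : Finite (B \ B' : Set α) := hfin.sdiff
    let e : Fin n ≃ (B \ B' : Set α) :=
      (Finite.equivFinOfCardEq (Nat.card_coe_set_eq (B \ B'))).symm
    exact ⟨fun i => (e i : α), Subtype.val_injective.comp e.injective, by
      rw [show (fun i => (e i : α)) = Subtype.val ∘ e from rfl, Set.range_comp, e.range_eq_univ,
        Set.image_univ, Subtype.range_coe]⟩
  obtain ⟨b', hb', hbr'⟩ : ∃ b' : Fin n → α, Function.Injective b' ∧ Set.range b' = B' \ B := by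
    have : Finite (B' \ B : Set α) := hfin'.sdiff
    let e : Fin n ≃ (B' \ B : Set α) :=
      (Finite.equivFinOfCardEq ((Nat.card_coe_set_eq (B' \ B)).trans hn')).symm
    exact ⟨fun i => (e i : α), Subtype.val_injective.comp e.injective, by
      rw [show (fun i => (e i : α)) = Subtype.val ∘ e from rfl, Set.range_comp, e.range_eq_univ,
        Set.image_univ, Subtype.range_coe]⟩
  -- contraction of the common part
  have hCi : M.Indep C := hB.indep.subset Set.inter_subset_left
  have hCE : C ⊆ M.E := hCi.subset_ground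
  have hφ' : ∀ X ⊆ (M ／ C).E, (M ／ C).Indep X ↔
      LinearIndepOn K ((Submodule.span K (φ '' C)).mkQ ∘ φ) X := by
    intro X hX
    rw [Matroid.contract_ground] at hX
    have hd : Disjoint C X := (Set.disjoint_sdiff_right).mono_right hX
    rw [hCi.contract_indep_iff, LinearIndepOn.quotient_iff_union ((hφ C hCE).1 hCi) hd,
      Set.union_comm X C, hφ _ (Set.union_subset hCE (hX.trans Set.sdiff_subset))]
    exact and_iff_right hd.symm
  have hbase1 : (M ／ C).IsBase (Set.range b) := by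
    rw [hbr, hCi.contract_isBase_iff]
    refine ⟨?_, ?_⟩
    · rwa [hC, Set.union_comm, Set.inter_union_sdiff]
    · rw [hC]
      exact Set.disjoint_left.2 fun x hx hx' => hx.2 hx'.2
  have hbase2 : (M ／ C).IsBase (Set.range b') := by
    rw [hbr', hCi.contract_isBase_iff]
    refine ⟨?_, ?_⟩
    · rwa [hC, Set.union_comm, Set.inter_comm, Set.inter_union_sdiff]
    · rw [hC]
      exact Set.disjoint_left.2 fun x hx hx' => hx.2 hx'.1
  obtain ⟨E, hE, h1, h2⟩ := H11SW.exists_vectors (M ／ C) _ hφ' b b' hb hb' hbase1 hbase2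
  set g : Fin n ⊕ Fin n → α := Sum.elim b b' with hg
  have hginj : Function.Injective g := by
    refine Function.Injective.sumElim hb hb' ?_
    intro i j hij
    have h3 : b i ∈ B \ B' := hbr ▸ ⟨i, rfl⟩
    have h4 : b' j ∈ B' \ B := hbr' ▸ ⟨j, rfl⟩
    exact h3.2 (hij ▸ h4.1)
  have hgC : ∀ a, g a ∉ C := by
    rintro (i | i) h
    · have h3 : b i ∈ B \ B' := hbr ▸ ⟨i, rfl⟩
      exact h3.2 h.2
    · have h3 : b' i ∈ B' \ B := hbr' ▸ ⟨i, rfl⟩
      exact h3.2 h.1
  have hbase : ∀ A, Good E A → M.IsBase (g '' (A : Set (Fin n ⊕ Fin n)) ∪ C) ∧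
      M.IsBase (g '' ((Aᶜ : Finset (Fin n ⊕ Fin n)) : Set (Fin n ⊕ Fin n)) ∪ C) := by
    intro A hA
    obtain ⟨h5, h3, h4⟩ := hA
    have h6 : Aᶜ.card = n := Good.card_compl ⟨h5, h3, h4⟩
    exact ⟨(hCi.contract_isBase_iff.1 (hE A h5 h3).1).1,
      (hCi.contract_isBase_iff.1 (hE Aᶜ h6 h4).1).1⟩
  -- the pair of bases of a set
  let P : Finset (Fin n ⊕ Fin n) → Set α × Set α := fun A =>
    (g '' (A : Set (Fin n ⊕ Fin n)) ∪ C,
      g '' ((Aᶜ : Finset (Fin n ⊕ Fin n)) : Set (Fin n ⊕ Fin n)) ∪ C)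
  have himg : ∀ A D : Finset (Fin n ⊕ Fin n),
      g '' (D : Set (Fin n ⊕ Fin n)) ∪ C = ((g '' (A : Set (Fin n ⊕ Fin n)) ∪ C) \
        (g '' ((A \ D : Finset (Fin n ⊕ Fin n)) : Set (Fin n ⊕ Fin n)))) ∪
        (g '' ((D \ A : Finset (Fin n ⊕ Fin n)) : Set (Fin n ⊕ Fin n))) := by
    intro A D
    ext x
    constructor
    · rintro (⟨a, ha, rfl⟩ | hx)
      · by_cases haA : a ∈ A
        · refine Or.inl ⟨Or.inl ⟨a, haA, rfl⟩, ?_⟩
          rintro ⟨a', ha', haa⟩
          rw [hginj haa] at ha'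
          exact (Finset.mem_sdiff.1 (Finset.mem_coe.1 ha')).2 ha
        · exact Or.inr ⟨a, by simpa [haA] using ha, rfl⟩
      · refine Or.inl ⟨Or.inr hx, ?_⟩
        rintro ⟨a, _, rfl⟩
        exact hgC a hx
    · rintro (⟨⟨a, ha, rfl⟩ | hx, h⟩ | ⟨a, ha, rfl⟩)
      · refine Or.inl ⟨a, ?_, rfl⟩
        by_contra hc
        exact h ⟨a, by simpa using ⟨ha, hc⟩, rfl⟩
      · exact Or.inr hx
      · exact Or.inl ⟨a, (by simpa using ha : a ∈ D ∧ a ∉ A).1, rfl⟩
  have main : ∀ A, Relation.ReflTransGen (Step E)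
      (univ.map ⟨Sum.inl, Sum.inl_injective⟩) A → Good E A ∧
      Relation.ReflTransGen (TwoExchange M)
        (P (univ.map ⟨Sum.inl, Sum.inl_injective⟩)) (P A) := by
    intro A hA
    induction hA with
    | refl => exact ⟨good_first h1 h2, Relation.ReflTransGen.refl⟩
    | @tail A A' _ h ih =>
      obtain ⟨hF', hc⟩ := h
      obtain ⟨hF, ih⟩ := ih
      refine ⟨hF', ih.tail ⟨⟨g '' ((A \ A' : Finset (Fin n ⊕ Fin n)) : Set (Fin n ⊕ Fin n)), ?_,
        g '' ((A' \ A : Finset (Fin n ⊕ Fin n)) : Set (Fin n ⊕ Fin n)), ?_, ?_, ?_, ?_, ?_⟩,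
        (hbase _ hF').1, (hbase _ hF').2⟩⟩
      · rintro _ ⟨a, ha, rfl⟩
        exact Or.inl ⟨a, (by simpa using ha : a ∈ A ∧ a ∉ A').1, rfl⟩
      · rintro _ ⟨a, ha, rfl⟩
        exact Or.inl ⟨a, by simpa using (by simpa using ha : a ∈ A' ∧ a ∉ A).2, rfl⟩
      · rw [hginj.encard_image, Set.encard_coe_eq_coe_finsetCard]
        have h7 := Finset.card_sdiff_add_card_inter A A'
        have h8 := hF.1
        have h9 : (A \ A').card ≤ 2 := by omega
        exact_mod_cast h9
      · rw [hginj.encard_image, hginj.encard_image, Set.encard_coe_eq_coe_finsetCard,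
          Set.encard_coe_eq_coe_finsetCard]
        have h7 := Finset.card_sdiff_add_card_inter A A'
        have h7' := Finset.card_sdiff_add_card_inter A' A
        rw [Finset.inter_comm] at h7'
        have h8 := hF.1
        have h8' := hF'.1
        have h9 : (A' \ A).card = (A \ A').card := by omega
        rw [h9]
      · exact himg A A'
      · have e : g '' ((A' \ A : Finset (Fin n ⊕ Fin n)) : Set (Fin n ⊕ Fin n)) =
            g '' ((Aᶜ \ A'ᶜ : Finset (Fin n ⊕ Fin n)) : Set (Fin n ⊕ Fin n)) := by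
          congr 2
          ext x
          simp [and_comm]
        have e' : g '' ((A \ A' : Finset (Fin n ⊕ Fin n)) : Set (Fin n ⊕ Fin n)) =
            g '' ((A'ᶜ \ Aᶜ : Finset (Fin n ⊕ Fin n)) : Set (Fin n ⊕ Fin n)) := by
          congr 2
          ext x
          simp [and_comm]
        rw [e, e']
        exact himg Aᶜ A'ᶜ
  have h3 := (main _ (hpath E h1 h2)).2
  have e1 : P (univ.map ⟨Sum.inl, Sum.inl_injective⟩) = (B, B') := by
    refine Prod.ext ?_ ?_
    · change g '' _ ∪ C = B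
      have : g '' ((univ.map ⟨Sum.inl, Sum.inl_injective⟩ : Finset (Fin n ⊕ Fin n)) :
          Set (Fin n ⊕ Fin n)) = B \ B' := by
        rw [← hbr]
        ext x
        simp [hg]
      rw [this, hC, Set.union_comm, Set.inter_union_sdiff]
    · change g '' _ ∪ C = B'
      have : g '' (((univ.map ⟨Sum.inl, Sum.inl_injective⟩)ᶜ : Finset (Fin n ⊕ Fin n)) :
          Set (Fin n ⊕ Fin n)) = B' \ B := by
        rw [← hbr']
        ext x
        simp [hg]
      rw [this, hC, Set.union_comm, Set.inter_comm, Set.inter_union_sdiff]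
  have e2 : P (univ.map ⟨Sum.inr, Sum.inr_injective⟩) = (B', B) := by
    refine Prod.ext ?_ ?_
    · change g '' _ ∪ C = B'
      have : g '' ((univ.map ⟨Sum.inr, Sum.inr_injective⟩ : Finset (Fin n ⊕ Fin n)) :
          Set (Fin n ⊕ Fin n)) = B' \ B := by
        rw [← hbr']
        ext x
        simp [hg]
      rw [this, hC, Set.union_comm, Set.inter_comm, Set.inter_union_sdiff]
    · change g '' _ ∪ C = B
      have : g '' (((univ.map ⟨Sum.inr, Sum.inr_injective⟩)ᶜ : Finset (Fin n ⊕ Fin n)) :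
          Set (Fin n ⊕ Fin n)) = B \ B' := by
        rw [← hbr]
        ext x
        simp [hg]
      rw [this, hC, Set.union_comm, Set.inter_union_sdiff]
  rw [e1, e2] at h3
  exact h3

/-- The path of the sets, in terms of the rank one sums. -/
def MStep {ι : Type*} [DecidableEq ι] {r : ℕ} (v w : ι → Fin r → K) (A A' : Finset ι) : Prop :=
  A'.card = r ∧ (msum v w A').det ≠ 0 ∧ r ≤ (A ∩ A').card + 2

theorem good_of_msum {r : ℕ} {E w : Fin r ⊕ Fin r → Fin r → K}
    (h : ∀ i j, ∑ x, E x i * w x j = 0) {A : Finset (Fin r ⊕ Fin r)} (hA : A.card = r)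
    (hd : (msum E w A).det ≠ 0) : Good E A := by
  refine ⟨hA, indep_left E w A hA hd, indep_left E w Aᶜ ?_ ?_⟩
  · have e3 := Finset.card_add_card_compl A
    rw [Fintype.card_sum, Fintype.card_fin, hA] at e3
    omega
  · rw [det_msum_compl E w h]
    exact mul_ne_zero (pow_ne_zero _ (neg_ne_zero.2 one_ne_zero)) hd

/-- **The swap from the statement on vectors.** -/
theorem swap_of_core {α V : Type*} [AddCommGroup V] [Module K V]
    (core : ∀ (r : ℕ) (v w : Fin r ⊕ Fin r → Fin r → K), (∀ i j, ∑ x, v x i * w x j = 0) →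
      ∀ S : Finset (Fin r ⊕ Fin r), S.card = r → (msum v w S).det ≠ 0 →
      Relation.ReflTransGen (MStep v w) S Sᶜ)
    (M : Matroid α) (φ : α → V) (hφ : ∀ X ⊆ M.E, M.Indep X ↔ LinearIndepOn K φ X)
    {B B' : Set α} (hB : M.IsBase B) (hB' : M.IsBase B') (hfin : B.Finite) :
    Relation.ReflTransGen (TwoExchange M) (B, B') (B', B) := by
  refine swap_of_paths M φ hφ hB hB' hfin fun E h1 h2 => ?_
  obtain ⟨w, hw, hd⟩ := exists_dual E h1 h2
  have h3 := core _ E w hw _ (by simp) hd
  have e : ((univ.map ⟨Sum.inl, Sum.inl_injective⟩)ᶜ :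
      Finset (Fin (B \ B').ncard ⊕ Fin (B \ B').ncard)) =
      univ.map ⟨Sum.inr, Sum.inr_injective⟩ := by
    ext x
    rcases x with i | i <;> simp
  rw [e] at h3
  exact Relation.ReflTransGen.mono (fun A A' h => ⟨good_of_msum hw h.1 h.2.1, h.2.2⟩) _ _ h3

end Pool.Agent.H60G2
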