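import Pool.Agent.H60G2.End
import Pool.Agent.H60G2.Lin
import Pool.Agent.H12S2.Core
import Pool.Agent.H97CB.CB

/-!
# The swap of two bases by exchanges of at most two elements, over every field
-/

set_option autoImplicit false

namespace Pool.Agent.H60G2

open Finset

variable {K : Type*} [Field K]

theorem core {r : ℕ} (v w : Fin r ⊕ Fin r → Fin r → K)
    (hrel : ∀ i j, ∑ x, v x i * w x j = 0) (S : Finset (Fin r ⊕ Fin r)) (hS : S.card = r)
    (hd : (msum v w S).det ≠ 0) : Relation.ReflTransGen (MStep v w) S Sᶜ := by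
  have hv := indep_left v w S hS hd
  have hw := indep_right v w S hS hd
  have hfr : Module.finrank K (Fin r → K) = r := by simp
  have hF : ∀ A, H97CB.FF v w A ≠ 0 ↔
      (lin (K := K) v).IsBase (A : Set (Fin r ⊕ Fin r)) ∧
        (lin (K := K) w).IsBase (A : Set (Fin r ⊕ Fin r)) := by
    intro A
    rw [H97CB.FF_ne_zero, lin_isBase hfr hS hv, lin_isBase hfr hS hw]
    tauto
  have hFM : ∀ A, H97CB.FF v w A ≠ 0 → A.card = r ∧ (msum v w A).det ≠ 0 := by
    intro A hA
    unfold H97CB.FF at hA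
    split_ifs at hA with h
    · exact ⟨h, hA⟩
    · exact absurd rfl hA
  have hFS : H97CB.FF v w S ≠ 0 := (H97CB.FF_ne_zero v w S).2 ⟨hS, hv, hw⟩
  have h := H12S2.reach_compl (lin (K := K) v) (lin (K := K) w) r (H97CB.FF v w) hF
    (fun A hA => ((lin_isBase hfr hS hv A).1 hA).1) (fun A hA => ((lin_isBase hfr hS hw A).1 hA).1)
    (fun C hC => H97CB.FF_sum hrel C hC) (by simp [two_mul]) hFS
  exact Relation.ReflTransGen.mono (fun A A' h => ⟨(hFM A' h.1).1, (hFM A' h.1).2, h.2⟩) _ _ h

/-- **The swap.** -/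
theorem two_swap {α V : Type*} [AddCommGroup V] [Module K V]
    (M : Matroid α) (φ : α → V) (hφ : ∀ X ⊆ M.E, M.Indep X ↔ LinearIndepOn K φ X)
    {B B' : Set α} (hB : M.IsBase B) (hB' : M.IsBase B') (hfin : B.Finite) :
    Relation.ReflTransGen (TwoExchange M) (B, B') (B', B) :=
  swap_of_core (fun _ v w h S hS hd => core v w h S hS hd) M φ hφ hB hB' hfin

end Pool.Agent.H60G2
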